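import Pool.Agent.H33.HC.TC
import Pool.Agent.H62.HH.BQC

/-!
# BQS: the coefficients of the mollified sum with complex shifts (MP_347b49_nt)
-/

set_option autoImplicit false

open NumberField Complex Filter Topology MeasureTheory
open scoped ContDiff nonZeroDivisors

namespace Pool.Agent.H39.HC

open Pool.Agent.H33.HC Pool.Agent.H33.HH Pool.Agent.H28.RC Pool.Agent.H37.CV Pool.Agent.H62.HH

noncomputable section

theorem gc_zero (h1 : T_GSC) {G : ℝ → ℝ} (hG : IsG G) {s : ℂ} (hs : Nr s) {Z t : ℝ} (hZ : 0 < Z)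
    (h : 6 * Z ≤ t) : gc G Z s t = 0 := by
  unfold gc
  rw [((h1 G hG).1 s hs).2.2.1 (t / Z) ((le_div_iff₀ hZ).2 h), mul_zero]

open scoped Classical in
theorem cfs_eq {K : Type} [Field K] [NumberField K] (P y Z : ℝ) (G : ℝ → ℝ) (s z : ℂ)
    (n : Ideal (𝓞 K)) :
    cfs P y Z G s z n = ∑ S ∈ DP K P y, if cd P S n then
      (lm K P y S : ℂ) * ((nS np S : ℝ) : ℂ) ^ (-z) * gc G Z s (nm n / nS np S) else 0 := by
  unfold cfs
  by_cases h : n ≠ ⊥ ∧ Cp P n
  · rw [if_pos h, Finset.sum_filter]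
    refine Finset.sum_congr rfl fun S _ => ?_
    by_cases hd : idS S ∣ n
    · rw [if_pos hd, if_pos ⟨h.1, h.2, hd⟩]
    · rw [if_neg hd, if_neg fun h' => hd h'.2.2]
  · rw [if_neg h]
    symm
    refine Finset.sum_eq_zero fun S _ => ?_
    rw [if_neg fun h' => h ⟨h'.1, h'.2.1⟩]

/-- BQS -/
theorem pf_BQS (h1 : T_GSC) (_h2 : Pool.Agent.H33.HH.T_IDF) : T_BQS := by
  classical
  intro K _ _ _ P y Z G s z hG hy hZ hs
  have hZ2 : 0 < 2 * Z := by positivity
  set N : Finset (Ideal (𝓞 K)) := (finN (K := K) (3 * y * (2 * Z))).toFinset with hNdef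
  have hN : ∀ n, n ∈ N ↔ nm n ≤ 3 * y * (2 * Z) := by
    intro n
    rw [hNdef]
    simp
  have hsup : ∀ n : Ideal (𝓞 K), cfs P y Z G s z n ≠ 0 → n ≠ ⊥ ∧ Cp P n ∧ nm n ≤ 6 * y * Z := by
    intro n hn
    rw [cfs_eq] at hn
    obtain ⟨S, hS, h3⟩ := Finset.exists_ne_zero_of_sum_ne_zero hn
    have hc : cd P S n := by
      by_contra hc
      exact h3 (if_neg hc)
    rw [if_pos hc] at h3
    refine ⟨hc.1, hc.2.1, ?_⟩
    by_contra hlt
    rw [not_le] at hlt
    obtain ⟨h4, -, -, -, h5⟩ := DP_spec hS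
    apply h3
    rw [gc_zero h1 hG hs hZ, mul_zero]
    rw [le_div_iff₀ h5]
    have : 6 * Z * nS np S ≤ 6 * y * Z := by nlinarith
    linarith
  have hsub : Function.support (cfs (K := K) P y Z G s z) ⊆ (N : Set (Ideal (𝓞 K))) := by
    intro n hn
    exact (hN n).2 (by have := (hsup n hn).2.2; linarith)
  refine ⟨N.finite_toSet.subset hsub, hsup, ?_⟩
  intro ψ hψ
  have e1 : mlz P y ψ z * (sumZ P fun m => gc G Z s (nm m) * ψ m) = ∑ S ∈ DP K P y,
      ((lm K P y S : ℂ) * ((nS np S : ℝ) : ℂ) ^ (-z)) *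
        ∑ n ∈ N, if cd P S n then gc G Z s (nm n / nS np S) * ψ n else 0 := by
    unfold mlz sumZ
    rw [Finset.sum_mul]
    refine Finset.sum_congr rfl fun S hS => ?_
    have h := reidx (E := ℂ) hZ2 N hN hS (fun t n => gc G Z s t * ψ n) (by
      intro t n ht
      rw [gc_zero h1 hG hs hZ (by linarith)]
      simp)
    rw [← h, ← tsum_mul_left, ← tsum_mul_left]
    refine tsum_congr fun m => ?_
    split_ifs with hc
    · rw [hψ]
      ring
    · rw [mul_zero, mul_zero]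
  rw [e1, finsum_eq_sum_of_support_subset (s := N)]
  · simp only [cfs_eq]
    simp only [Finset.mul_sum]
    rw [Finset.sum_comm]
    refine Finset.sum_congr rfl fun n _ => ?_
    rw [Finset.sum_mul]
    refine Finset.sum_congr rfl fun S _ => ?_
    split_ifs
    · ring
    · simp
  · intro n hn
    refine hsub ?_
    rw [Function.mem_support] at hn ⊢
    intro h0
    exact hn (by rw [h0]; simp)

end

end Pool.Agent.H39.HC
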